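import Mathlib
import Pool.Agent.Lib.MP_84bec1_pr.Perc

set_option autoImplicit false

open MeasureTheory ProbabilityTheory Filter Topology

namespace Pool.Agent.Results.MP_84bec1_pr.BondDilution

/-- Vertices of the square lattice. -/
abbrev Vert := ℤ × ℤ

/-- Nearest-neighbour edges of the square lattice: `(x, false)` is the edge `{x, x + (1,0)}` and
`(x, true)` is the edge `{x, x + (0,1)}`. -/
abbrev Edge := Vert × Bool

/-- First endpoint of an edge. -/
def src (e : Edge) : Vert := e.1

/-- Second endpoint of an edge. -/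
def tgt (e : Edge) : Vert := if e.2 then (e.1.1, e.1.2 + 1) else (e.1.1 + 1, e.1.2)

/-- The box `{-L,…,L}²`. -/
noncomputable def box (L : ℕ) : Finset Vert := Finset.Icc (-(L : ℤ)) L ×ˢ Finset.Icc (-(L : ℤ)) L

/-- The `ω`-open edges with both endpoints in the box. -/
noncomputable def openEdges (L : ℕ) (ω : Edge → Bool) : Finset Edge :=
  (box L ×ˢ Finset.univ).filter (fun e => tgt e ∈ box L ∧ ω e = true)

/-- The Villain weight `∑_m exp(-(β/2)(θ+2πm)²)`. -/
noncomputable def villainWeight (β θ : ℝ) : ℝ :=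
  ∑' m : ℤ, Real.exp (-(β / 2) * (θ + 2 * Real.pi * m) ^ 2)

/-- Extension by zero of a spin configuration on `V`. -/
noncomputable def extendSpin {V : Finset Vert} (θ : V → ℝ) (x : Vert) : ℝ :=
  if h : x ∈ V then θ ⟨x, h⟩ else 0

/-- Unnormalised Villain integral over spins in `(-π, π]^V` with edge set `E`. -/
noncomputable def villainInt (V : Finset Vert) (E : Finset Edge) (β : ℝ) (f : (Vert → ℝ) → ℝ) : ℝ :=
  ∫ θ : V → ℝ in Set.univ.pi (fun _ => Set.Ioc (-Real.pi) Real.pi),
    f (extendSpin θ) * ∏ e ∈ E, villainWeight β (extendSpin θ (src e) - extendSpin θ (tgt e))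

/-- Expectation under the Villain Gibbs measure on the finite graph `(V, E)`. -/
noncomputable def villainMean (V : Finset Vert) (E : Finset Edge) (β : ℝ) (f : (Vert → ℝ) → ℝ) : ℝ :=
  villainInt V E β f / villainInt V E β (fun _ => 1)

/-- The two-point function `⟨cos(θ_0 - θ_x)⟩_{L,β,ω}` in the box with free boundary conditions. -/
noncomputable def corr (L : ℕ) (β : ℝ) (ω : Edge → Bool) (x : Vert) : ℝ :=
  villainMean (box L) (openEdges L ω) β (fun θ => Real.cos (θ 0 - θ x))

/-- The infinite-volume two-point function, the limit as `L → ∞`. -/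
noncomputable def corrLim (β : ℝ) (ω : Edge → Bool) (x : Vert) : ℝ :=
  limUnder atTop (fun L : ℕ => corr L β ω x)

/-- The law of Bernoulli bond percolation with parameter `p`. -/
noncomputable def perc (p : unitInterval) : Measure (Edge → Bool) :=
  Measure.infinitePi (fun _ : Edge => bernoulliMeasure true false p)

/-- The averaged two-point function `E_p[⟨cos(θ_0 - θ_x)⟩_{β,ω}]`. -/
noncomputable def meanCorr (p : unitInterval) (β : ℝ) (x : Vert) : ℝ :=
  ∫ ω, corrLim β ω x ∂(perc p)

/-- Polynomial decay (a polynomial lower bound), with the Euclidean norm. -/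
def PolyDecay (f : Vert → ℝ) : Prop :=
  ∃ c C : ℝ, 0 < c ∧ 0 < C ∧ ∀ x : Vert,
    c * (1 + Real.sqrt ((x.1 : ℝ) ^ 2 + (x.2 : ℝ) ^ 2)) ^ (-C) ≤ f x

/-- The critical inverse temperature `β_c(p)`, an infimum in the extended reals;
`β_KT` is `betaC 1`. -/
noncomputable def betaC (p : unitInterval) : EReal :=
  sInf ((fun β : ℝ => (β : EReal)) '' {β : ℝ | 0 ≤ β ∧ PolyDecay (meanCorr p β)})

/-! ### Link with the circle formulation -/

open Pool.Agent.Lib.MP_84bec1_pr

lemma zero_mem_box (L : ℕ) : (0 : Vert) ∈ box L := by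
  simp [box]

/-- endpoint maps into the box -/
noncomputable def toBox (L : ℕ) (x : Vert) : box L :=
  if h : x ∈ box L then ⟨x, h⟩ else ⟨0, zero_mem_box L⟩

lemma extendSpin_eq {L : ℕ} (θ : box L → ℝ) {x : Vert} (hx : x ∈ box L) : extendSpin θ x = θ (toBox L x) := by
  unfold extendSpin toBox
  rw [dif_pos hx, dif_pos hx]

lemma mem_openEdges {L : ℕ} {ω : Edge → Bool} {e : Edge} :
    e ∈ openEdges L ω ↔ src e ∈ box L ∧ tgt e ∈ box L ∧ ω e = true := by
  unfold openEdges src
  simp [Finset.mem_filter, Finset.mem_product]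

/-- integration over the cube equals a constant times integration over the torus -/
lemma cube_integral (V : Type) [Fintype V] : ∃ C : ℝ, 0 < C ∧ ∀ f : (V → TT) → ℝ, Continuous f →
    ∫ θ : V → ℝ in Set.univ.pi (fun _ => Set.Ioc (-Real.pi) Real.pi), f (fun v => ((θ v : ℝ) : TT)) =
      C * ∫ σ, f σ ∂(mu V) := by
  have hIoc : Set.Ioc (-Real.pi) (-Real.pi + 2 * Real.pi) = Set.Ioc (-Real.pi) Real.pi := by
    congr 1; ring
  have hmp1 := AddCircle.measurePreserving_mk (2 * Real.pi) (-Real.pi)
  rw [hIoc] at hmp1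
  have hmp := measurePreserving_pi (fun _ : V => volume.restrict (Set.Ioc (-Real.pi) Real.pi))
    (fun _ : V => (volume : Measure TT)) (fun _ => hmp1)
  have hr : (volume : Measure (V → ℝ)).restrict (Set.univ.pi (fun _ => Set.Ioc (-Real.pi) Real.pi)) =
      Measure.pi (fun _ : V => volume.restrict (Set.Ioc (-Real.pi) Real.pi)) :=
    Measure.restrict_pi_pi _ _
  set ν : Measure (V → TT) := Measure.pi (fun _ : V => (volume : Measure TT)) with hν
  have hsm : ν = ν.addHaarScalarFactor (mu V) • (mu V) := Measure.isAddLeftInvariant_eq_smul _ _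
  refine ⟨(ν.addHaarScalarFactor (mu V) : ℝ), ?_, ?_⟩
  · exact_mod_cast Measure.addHaarScalarFactor_pos_of_isAddHaarMeasure ν (mu V)
  · intro f hf
    have e1 : ∫ θ : V → ℝ in Set.univ.pi (fun _ => Set.Ioc (-Real.pi) Real.pi),
        f (fun v => ((θ v : ℝ) : TT)) = ∫ σ, f σ ∂ν := by
      rw [hr, ← hmp.map_eq, integral_map hmp.measurable.aemeasurable hf.aestronglyMeasurable]
    rw [e1]
    conv_lhs => rw [hsm]
    rw [integral_smul_nnreal_measure]
    rfl

lemma weight_eq {β : ℝ} (hβ : 0 < β) (θ : ℝ) :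
    villainWeight β θ = (Real.sqrt (2 * Real.pi * β))⁻¹ * h (1 / (2 * β)) (θ : TT) := by
  have h1 := h_eq_vw hβ θ
  have h2 : villainWeight β θ = vwL β θ := rfl
  have hpi := Real.pi_pos
  have h3 : Real.sqrt (2 * Real.pi * β) ≠ 0 := by positivity
  rw [h1, h2]
  field_simp

/-- The finite-volume two-point function in terms of the circle model. -/
lemma corr_eq {L : ℕ} {β : ℝ} (hβ : 0 < β) (ω : Edge → Bool) {x : Vert} (hx : x ∈ box L) :
    corr L β ω x = Cf (fun e => toBox L (src e)) (fun e => toBox L (tgt e)) (toBox L 0) (toBox L x)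
      (fun _ => h (1 / (2 * β))) (openEdges L ω) := by
  set t := 1 / (2 * β) with ht
  have htpos : 0 < t := by positivity
  obtain ⟨C, hC, hCf⟩ := cube_integral (box L)
  set S : Edge → box L := fun e => toBox L (src e) with hS
  set T : Edge → box L := fun e => toBox L (tgt e) with hT
  set E := openEdges L ω with hE
  set κ : ℝ := (Real.sqrt (2 * Real.pi * β))⁻¹ with hκ
  have hpi := Real.pi_pos
  have hκpos : 0 < κ := by positivity
  have hWc : Continuous (WP S T (fun _ => h t) E) := WP_cont S T (fun e _ => good_h htpos)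
  have cc : Continuous (fun σ : box L → TT => cosT (σ (toBox L 0) - σ (toBox L x))) :=
    continuous_cosT.comp (by fun_prop)
  have hprod : ∀ θ : box L → ℝ, ∏ e ∈ E, villainWeight β (extendSpin θ (src e) - extendSpin θ (tgt e)) =
      κ ^ E.card * WP S T (fun _ => h t) E (fun v => ((θ v : ℝ) : TT)) := by
    intro θ
    unfold WP
    rw [← Finset.prod_const, ← Finset.prod_mul_distrib]
    apply Finset.prod_congr rfl
    intro e he
    have hm := mem_openEdges.mp he
    rw [weight_eq hβ, extendSpin_eq θ hm.1, extendSpin_eq θ hm.2.1, AddCircle.coe_sub]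
  have hcos : ∀ θ : box L → ℝ, Real.cos (extendSpin θ 0 - extendSpin θ x) =
      cosT (((θ (toBox L 0) : ℝ) : TT) - ((θ (toBox L x) : ℝ) : TT)) := by
    intro θ
    rw [← AddCircle.coe_sub, cosT_coe, extendSpin_eq θ (zero_mem_box L), extendSpin_eq θ hx]
  have eN : villainInt (box L) E β (fun θ => Real.cos (θ 0 - θ x)) =
      κ ^ E.card * (C * Nf S T (toBox L 0) (toBox L x) (fun _ => h t) E) := by
    unfold villainInt Nf
    rw [← hCf _ (cc.fun_mul hWc), ← integral_const_mul]
    congr 1
    ext θ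
    simp only [hprod, hcos]
    ring
  have eZ : villainInt (box L) E β (fun _ => 1) = κ ^ E.card * (C * Zf S T (fun _ => h t) E) := by
    unfold villainInt Zf
    rw [← hCf _ hWc, ← integral_const_mul]
    congr 1
    ext θ
    simp only [hprod]
    ring
  have hZ : 0 < Zf S T (fun _ => h t) E :=
    int_pos hWc (WP_pos S T (fun e _ => good_h htpos))
  unfold corr villainMean Cf
  rw [eN, eZ]
  have hk : κ ^ E.card ≠ 0 := by positivity
  field_simp

/-! ### Independence of the box -/

/-- the universal numerator, on the infinite torus -/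
noncomputable def UN (t : ℝ) (E : Finset Edge) (x : Vert) : ℝ :=
  ∫ σ : Vert → TT, cosT (σ 0 - σ x) * ∏ e ∈ E, h t (σ (src e) - σ (tgt e))
    ∂(Measure.infinitePi (fun _ : Vert => (AddCircle.haarAddCircle : Measure TT)))

noncomputable def UZ (t : ℝ) (E : Finset Edge) : ℝ :=
  ∫ σ : Vert → TT, ∏ e ∈ E, h t (σ (src e) - σ (tgt e))
    ∂(Measure.infinitePi (fun _ : Vert => (AddCircle.haarAddCircle : Measure TT)))

lemma restrict_toBox {L : ℕ} (σ : Vert → TT) {x : Vert} (hx : x ∈ box L) :
    (box L).restrict σ (toBox L x) = σ x := by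
  unfold toBox
  rw [dif_pos hx]
  rfl

lemma Nf_eq {t : ℝ} (ht : 0 < t) {L : ℕ} {E : Finset Edge} (hE : ∀ e ∈ E, src e ∈ box L ∧ tgt e ∈ box L)
    {x : Vert} (hx : x ∈ box L) :
    Nf (fun e => toBox L (src e)) (fun e => toBox L (tgt e)) (toBox L 0) (toBox L x)
      (fun _ => h t) E = UN t E x := by
  unfold Nf UN mu
  have cc : Continuous (fun σ : box L → TT => cosT (σ (toBox L 0) - σ (toBox L x))) :=
    continuous_cosT.comp (by fun_prop)
  have hWc : Continuous (WP (fun e => toBox L (src e)) (fun e => toBox L (tgt e)) (fun _ => h t) E) :=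
    WP_cont _ _ (fun e _ => good_h ht)
  have h2 := integral_restrict_infinitePi (X := fun _ : Vert => TT)
    (μ := fun _ : Vert => (AddCircle.haarAddCircle : Measure TT)) (s := box L)
    (f := fun σ => cosT (σ (toBox L 0) - σ (toBox L x)) *
      WP (fun e => toBox L (src e)) (fun e => toBox L (tgt e)) (fun _ => h t) E σ)
    (cc.fun_mul hWc).aestronglyMeasurable
  rw [← h2]
  congr 1
  ext σ
  rw [restrict_toBox σ (zero_mem_box L), restrict_toBox σ hx]
  congr 1
  unfold WP
  apply Finset.prod_congr rfl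
  intro e he
  rw [restrict_toBox σ (hE e he).1, restrict_toBox σ (hE e he).2]

lemma Zf_eq {t : ℝ} (ht : 0 < t) {L : ℕ} {E : Finset Edge} (hE : ∀ e ∈ E, src e ∈ box L ∧ tgt e ∈ box L) :
    Zf (fun e => toBox L (src e)) (fun e => toBox L (tgt e))
      (fun _ => h t) E = UZ t E := by
  unfold Zf UZ mu
  have hWc : Continuous (WP (fun e => toBox L (src e)) (fun e => toBox L (tgt e)) (fun _ => h t) E) :=
    WP_cont _ _ (fun e _ => good_h ht)
  have h2 := integral_restrict_infinitePi (X := fun _ : Vert => TT)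
    (μ := fun _ : Vert => (AddCircle.haarAddCircle : Measure TT)) (s := box L)
    (f := fun σ =>
      WP (fun e => toBox L (src e)) (fun e => toBox L (tgt e)) (fun _ => h t) E σ)
    hWc.aestronglyMeasurable
  rw [← h2]
  congr 1
  ext σ
  unfold WP
  apply Finset.prod_congr rfl
  intro e he
  rw [restrict_toBox σ (hE e he).1, restrict_toBox σ (hE e he).2]

/-- the universal two-point function -/
noncomputable def UC (t : ℝ) (E : Finset Edge) (x : Vert) : ℝ := UN t E x / UZ t E

lemma Cf_eq {t : ℝ} (ht : 0 < t) {L : ℕ} {E : Finset Edge} (hE : ∀ e ∈ E, src e ∈ box L ∧ tgt e ∈ box L)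
    {x : Vert} (hx : x ∈ box L) :
    Cf (fun e => toBox L (src e)) (fun e => toBox L (tgt e)) (toBox L 0) (toBox L x)
      (fun _ => h t) E = UC t E x := by
  unfold Cf UC
  rw [Nf_eq ht hE hx, Zf_eq ht hE]

lemma corr_eq_UC {L : ℕ} {β : ℝ} (hβ : 0 < β) (ω : Edge → Bool) {x : Vert} (hx : x ∈ box L) :
    corr L β ω x = UC (1 / (2 * β)) (openEdges L ω) x := by
  rw [corr_eq hβ ω hx]
  apply Cf_eq (by positivity) _ hx
  intro e he
  have := mem_openEdges.mp he
  exact ⟨this.1, this.2.1⟩

lemma box_mono {L M : ℕ} (h : L ≤ M) : box L ⊆ box M := by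
  intro x hx
  unfold box at *
  simp only [Finset.mem_product, Finset.mem_Icc] at *
  have : (L : ℤ) ≤ M := by exact_mod_cast h
  omega

lemma openEdges_mono {L M : ℕ} (h : L ≤ M) (ω : Edge → Bool) : openEdges L ω ⊆ openEdges M ω := by
  intro e he
  rw [mem_openEdges] at *
  exact ⟨box_mono h he.1, box_mono h he.2.1, he.2.2⟩

/-- monotonicity in the volume -/
lemma corr_mono {β : ℝ} (hβ : 0 < β) (ω : Edge → Bool) {x : Vert} {L M : ℕ} (hx : x ∈ box L) (hLM : L ≤ M) :
    corr L β ω x ≤ corr M β ω x := by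
  have hxM := box_mono hLM hx
  have ht : 0 < 1 / (2 * β) := by positivity
  rw [corr_eq_UC hβ ω hx, corr_eq hβ ω hxM]
  have hE : ∀ e ∈ openEdges L ω, src e ∈ box M ∧ tgt e ∈ box M := by
    intro e he
    have := mem_openEdges.mp he
    exact ⟨box_mono hLM this.1, box_mono hLM this.2.1⟩
  rw [← Cf_eq ht hE hxM]
  exact add_edges _ _ _ _ ht (openEdges_mono hLM ω)

lemma exists_box (x : Vert) : ∃ L : ℕ, x ∈ box L := by
  refine ⟨x.1.natAbs + x.2.natAbs, ?_⟩
  unfold box
  simp only [Finset.mem_product, Finset.mem_Icc]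
  omega

lemma abs_corr_le {L : ℕ} {β : ℝ} (hβ : 0 < β) (ω : Edge → Bool) {x : Vert} (hx : x ∈ box L) :
    |corr L β ω x| ≤ 1 := by
  rw [corr_eq hβ ω hx]
  exact abs_Cf_le _ _ _ _ (fun e _ => good_h (by positivity))

/-- The infinite-volume limit exists. -/
lemma corr_tendsto {β : ℝ} (hβ : 0 < β) (ω : Edge → Bool) (x : Vert) :
    Tendsto (fun L : ℕ => corr L β ω x) atTop (𝓝 (corrLim β ω x)) := by
  obtain ⟨L₀, hL₀⟩ := exists_box x
  have hmem : ∀ n, x ∈ box (n + L₀) := fun n => box_mono (by omega) hL₀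
  have hmono : Monotone (fun n : ℕ => corr (n + L₀) β ω x) := by
    intro m n hmn
    exact corr_mono hβ ω (hmem m) (by omega)
  have hbdd : BddAbove (Set.range (fun n : ℕ => corr (n + L₀) β ω x)) := by
    refine ⟨1, ?_⟩
    rintro _ ⟨n, rfl⟩
    exact (abs_le.mp (abs_corr_le hβ ω (hmem n))).2
  have h1 := tendsto_atTop_ciSup hmono hbdd
  have h2 : Tendsto (fun L : ℕ => corr L β ω x) atTop (𝓝 (⨆ n : ℕ, corr (n + L₀) β ω x)) :=
    (tendsto_add_atTop_iff_nat L₀).mp h1
  exact tendsto_nhds_limUnder ⟨_, h2⟩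

/-! ### The averaged comparison -/

lemma openEdges_eq_filter (L : ℕ) (ω : Edge → Bool) :
    openEdges L ω = (openEdges L (fun _ => true)).filter (fun e => ω e = true) := by
  ext e
  rw [Finset.mem_filter, mem_openEdges, mem_openEdges]
  tauto

/-- finite-volume comparison between the diluted and the homogeneous models -/
lemma finite_box {β β' ε M : ℝ} (hβ : 0 < β) (hβ' : 0 < β') (hlt : β' < β) (hε : 0 < ε)
    (hmin : ∀ y : TT, ε ≤ h (1 / (2 * β') - 1 / (2 * β)) y) (hM : ∀ y : TT, h (1 / (2 * β)) y ≤ M)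
    (p : unitInterval) (hp : (1 - (p : ℝ)) * M ≤ p * ε) {L : ℕ} {x : Vert} (hx : x ∈ box L) :
    corr L β' (fun _ => true) x ≤ ∫ ω, corr L β ω x ∂(perc p) := by
  have ht : 0 < 1 / (2 * β) := by positivity
  have hρ : 0 < 1 / (2 * β') - 1 / (2 * β) := by
    rw [sub_pos]
    apply one_div_lt_one_div_of_lt <;> linarith
  set S : Edge → box L := fun e => toBox L (src e) with hS
  set T : Edge → box L := fun e => toBox L (tgt e) with hT
  set E := openEdges L (fun _ => true) with hE
  have key := finite_comparison S T (toBox L 0) (toBox L x) ht hρ hε hmin hM hp p.2.1 p.2.2 E E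
    (Finset.Subset.refl E)
  rw [show 1 / (2 * β) + (1 / (2 * β') - 1 / (2 * β)) = 1 / (2 * β') by ring] at key
  rw [corr_eq hβ' _ hx]
  refine key.trans (le_of_eq ?_)
  -- the average is the expectation
  set G : Finset Edge → ℝ := fun A => Cf S T (toBox L 0) (toBox L x) (fun _ => h (1 / (2 * β))) A with hG
  have h1 : ∀ ω, corr L β ω x = G (E.filter (fun e => ω e = true)) := by
    intro ω
    rw [corr_eq hβ ω hx, openEdges_eq_filter]
  simp_rw [h1]
  have h2 := expect_formula p E G
  unfold perc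
  unfold percL at h2
  rw [h2]
  unfold Av
  apply Finset.sum_congr rfl
  intro A hA
  have hAE := Finset.mem_powerset.mp hA
  congr 1
  have h3 : ∀ σ : box L → TT, WP S T (Wt (1 / (2 * β)) (1 / (2 * β')) E A) E σ =
      WP S T (fun _ => h (1 / (2 * β))) A σ := by
    intro σ
    unfold WP
    have h4 : ∏ e ∈ E, Wt (1 / (2 * β)) (1 / (2 * β')) E A e (σ (S e) - σ (T e)) =
        ∏ e ∈ E, (if e ∈ A then h (1 / (2 * β)) (σ (S e) - σ (T e)) else 1) := by
      apply Finset.prod_congr rfl
      intro e he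
      unfold Wt
      rw [if_pos he]
      split_ifs <;> rfl
    rw [h4, Finset.prod_ite_mem, Finset.inter_eq_right.mpr hAE]
  simp only [hG]
  unfold Cf Nf Zf
  simp_rw [h3]

lemma corr_measurable (L : ℕ) (β : ℝ) (x : Vert) : Measurable (fun ω => corr L β ω x) := by
  set E := openEdges L (fun _ => true) with hE
  have h1 : (fun ω => corr L β ω x) =
      (fun y : E → Bool => villainMean (box L)
        ((Finset.univ.filter (fun e : E => y e = true)).map (Function.Embedding.subtype _)) β
        (fun θ => Real.cos (θ 0 - θ x))) ∘ (E.restrict) := by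
    funext ω
    simp only [Function.comp]
    unfold corr
    congr 1
    rw [openEdges_eq_filter]
    ext e
    simp only [Finset.mem_map, Finset.mem_filter, Finset.mem_univ, true_and,
      Function.Embedding.subtype_apply]
    constructor
    · rintro ⟨he, he'⟩; exact ⟨⟨e, he⟩, he', rfl⟩
    · rintro ⟨e', he', rfl⟩; exact ⟨e'.2, he'⟩
  rw [h1]
  exact (measurable_of_finite _).comp (Finset.measurable_restrict E)

instance (p : unitInterval) : IsProbabilityMeasure (perc p) := by
  unfold perc; infer_instance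

/-- infinite-volume comparison -/
lemma limit_comparison {β β' : ℝ} (hβ' : 0 < β') (hlt : β' < β) :
    ∃ p : unitInterval, (1 / 2 : ℝ) < p ∧ (p : ℝ) < 1 ∧
      ∀ x : Vert, corrLim β' (fun _ => true) x ≤ meanCorr p β x := by
  have hβ : 0 < β := by linarith
  have ht : 0 < 1 / (2 * β) := by positivity
  have hρ : 0 < 1 / (2 * β') - 1 / (2 * β) := by
    rw [sub_pos]
    apply one_div_lt_one_div_of_lt <;> linarith
  -- minimum and maximum of the heat kernels
  obtain ⟨y₀, -, hy₀⟩ := isCompact_univ.exists_isMinOn (Set.univ_nonempty) (continuous_h hρ).continuousOn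
  obtain ⟨y₁, -, hy₁⟩ := isCompact_univ.exists_isMaxOn (Set.univ_nonempty) (continuous_h ht).continuousOn
  set ε := h (1 / (2 * β') - 1 / (2 * β)) y₀ with hε'
  set M := h (1 / (2 * β)) y₁ with hM'
  have hε : 0 < ε := h_pos hρ _
  have hMpos : 0 < M := h_pos ht _
  have hmin : ∀ y : TT, ε ≤ h (1 / (2 * β') - 1 / (2 * β)) y := fun y => hy₀ (Set.mem_univ y)
  have hM : ∀ y : TT, h (1 / (2 * β)) y ≤ M := fun y => hy₁ (Set.mem_univ y)
  set q : ℝ := max (3 / 4) (M / (M + ε)) with hq
  have hq1 : q < 1 := by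
    apply max_lt (by norm_num)
    rw [div_lt_one (by positivity)]; linarith
  have hq0 : 3 / 4 ≤ q := le_max_left _ _
  have hqM : M / (M + ε) ≤ q := le_max_right _ _
  have hqM' : M ≤ q * (M + ε) := by
    rwa [div_le_iff₀ (by positivity)] at hqM
  set p : unitInterval := ⟨q, by linarith, by linarith⟩ with hp
  have hpM : (1 - (p : ℝ)) * M ≤ p * ε := by
    change (1 - q) * M ≤ q * ε
    nlinarith
  refine ⟨p, by change (1 / 2 : ℝ) < q; linarith, hq1, ?_⟩
  intro x
  obtain ⟨L₀, hL₀⟩ := exists_box x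
  have hmem : ∀ n, x ∈ box (n + L₀) := fun n => box_mono (by omega) hL₀
  have hl1 : Tendsto (fun n : ℕ => corr (n + L₀) β' (fun _ => true) x) atTop
      (𝓝 (corrLim β' (fun _ => true) x)) :=
    (tendsto_add_atTop_iff_nat L₀).mpr (corr_tendsto hβ' _ x)
  have hl2 : Tendsto (fun n : ℕ => ∫ ω, corr (n + L₀) β ω x ∂(perc p)) atTop (𝓝 (meanCorr p β x)) := by
    unfold meanCorr
    apply tendsto_integral_of_dominated_convergence (fun _ => (1 : ℝ))
    · intro n; exact (corr_measurable _ _ _).aestronglyMeasurable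
    · exact integrable_const _
    · intro n
      exact ae_of_all _ (fun ω => abs_corr_le hβ ω (hmem n))
    · exact ae_of_all _ (fun ω => (tendsto_add_atTop_iff_nat L₀).mpr (corr_tendsto hβ ω x))
  exact le_of_tendsto_of_tendsto' hl1 hl2
    (fun n => finite_box hβ hβ' hlt hε hmin hM p hpM (hmem n))

lemma meanCorr_one (β : ℝ) (x : Vert) : meanCorr 1 β x = corrLim β (fun _ => true) x := by
  unfold meanCorr perc
  have : (fun _ : Edge => bernoulliMeasure true false (1 : unitInterval)) =
      (fun e : Edge => Measure.dirac ((fun _ : Edge => true) e)) := by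
    funext e
    exact bernoulliMeasure_one _ _
  rw [this, Measure.infinitePi_dirac, integral_dirac]

lemma villainWeight_zero (θ : ℝ) : villainWeight 0 θ = 0 := by
  unfold villainWeight
  apply tsum_eq_zero_of_not_summable
  simp only [zero_div, neg_zero, zero_mul, Real.exp_zero]
  intro hs
  have := hs.tendsto_cofinite_zero
  have h1 := tendsto_const_nhds_iff.mp this
  exact one_ne_zero h1

lemma corrLim_zero (x : Vert) : corrLim 0 (fun _ => true) x = 0 := by
  have h0 : ∀ L : ℕ, 1 ≤ L → corr L 0 (fun _ => true) x = 0 := by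
    intro L hL
    unfold corr villainMean
    have hmem : ((0 : Vert), false) ∈ openEdges L (fun _ => true) := by
      rw [mem_openEdges]
      refine ⟨zero_mem_box L, ?_, rfl⟩
      unfold tgt box
      simp only [Bool.false_eq_true, if_false, Finset.mem_product, Finset.mem_Icc]
      simp
      omega
    have hN : villainInt (box L) (openEdges L (fun _ => true)) 0 (fun θ => Real.cos (θ 0 - θ x)) = 0 := by
      unfold villainInt
      have : ∀ θ : box L → ℝ, ∏ e ∈ openEdges L (fun _ => true),
          villainWeight 0 (extendSpin θ (src e) - extendSpin θ (tgt e)) = 0 := by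
        intro θ
        exact Finset.prod_eq_zero hmem (villainWeight_zero _)
      simp_rw [this]
      simp
    rw [hN, zero_div]
  have h1 : Tendsto (fun L : ℕ => corr L 0 (fun _ => true) x) atTop (𝓝 0) := by
    apply tendsto_const_nhds.congr'
    filter_upwards [eventually_ge_atTop 1] with L hL
    exact (h0 L hL).symm
  exact h1.limUnder_eq

lemma PolyDecay.mono {f g : Vert → ℝ} (hf : PolyDecay f) (hfg : ∀ x, f x ≤ g x) : PolyDecay g := by
  obtain ⟨c, C, hc, hC, hx⟩ := hf
  exact ⟨c, C, hc, hC, fun x => (hx x).trans (hfg x)⟩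

/-- **Persistence of the BKT phase under bond dilution.** For every inverse temperature
`β > β_KT` (`= betaC 1`) there is `p ∈ (1/2, 1)` such that the averaged two-point function of the
Villain model on Bernoulli(`p`) bond percolation on `ℤ²` decays polynomially. -/
theorem result : ∀ β : ℝ, betaC 1 < (β : EReal) →
    ∃ p : unitInterval, (1 / 2 : ℝ) < p ∧ (p : ℝ) < 1 ∧ PolyDecay (meanCorr p β) := by
  intro β hβ
  unfold betaC at hβ
  rw [sInf_lt_iff] at hβ
  obtain ⟨_, ⟨β', ⟨hβ'0, hpoly⟩, rfl⟩, hlt⟩ := hβ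
  have hlt' : β' < β := EReal.coe_lt_coe_iff.mp hlt
  have hβ'pos : 0 < β' := by
    rcases lt_or_eq_of_le hβ'0 with h | h
    · exact h
    · exfalso
      obtain ⟨c, C, hc, hC, hx⟩ := hpoly
      have h1 := hx 0
      rw [meanCorr_one, ← h, corrLim_zero] at h1
      simp at h1
      linarith
  obtain ⟨p, hp1, hp2, hcomp⟩ := limit_comparison hβ'pos hlt'
  refine ⟨p, hp1, hp2, hpoly.mono ?_⟩
  intro x
  rw [meanCorr_one]
  exact hcomp x

end Pool.Agent.Results.MP_84bec1_pr.BondDilution
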